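import Pool.Agent.Helper69.HFTop

set_option autoImplicit false

namespace Pool.Agent.Results.MP_5a4a69_co.HookFactorisation

/-- `m` is a perfect matching of the complete graph `K_{2n}` on the vertex set `Fin (2 * n)`:
a set of edges (unordered pairs of distinct vertices) such that each vertex lies in exactly one
of them. -/
def IsPerfectMatching (n : ℕ) (m : Finset (Sym2 (Fin (2 * n)))) : Prop :=
  (∀ e ∈ m, ¬ e.IsDiag) ∧ ∀ v : Fin (2 * n), ∃! e, e ∈ m ∧ v ∈ e

/-- The set partition `P` of the vertex set of `K_{2n}` has shape `2 lam`. -/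
def HasShape (n : ℕ) (lam : Nat.Partition n)
    (P : Finpartition (Finset.univ : Finset (Fin (2 * n)))) : Prop :=
  P.parts.val.map Finset.card = lam.parts.map (fun k => 2 * k)

/-- The perfect matching `m` refines the set partition `P`: each edge of `m` lies inside a block
of `P`. -/
def Refines (n : ℕ) (m : Finset (Sym2 (Fin (2 * n))))
    (P : Finpartition (Finset.univ : Finset (Fin (2 * n)))) : Prop :=
  ∀ e ∈ m, ∃ B ∈ P.parts, ∀ v ∈ e, v ∈ B

/-- `D` is a `lam`-factorisation of `K_{2n}` of index `c`: a nonempty set of perfect matchings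
such that each set partition of shape `2 lam` is refined by exactly `c > 0` members of `D`. -/
def IsFactorisation (n : ℕ) (lam : Nat.Partition n) (c : ℕ)
    (D : Set (Finset (Sym2 (Fin (2 * n))))) : Prop :=
  D.Nonempty ∧ (∀ m ∈ D, IsPerfectMatching n m) ∧ 0 < c ∧
    ∀ P : Finpartition (Finset.univ : Finset (Fin (2 * n))), HasShape n lam P →
      {m | m ∈ D ∧ Refines n m P}.ncard = c

/-- The partition `(n - 3, 1, 1, 1)` of `n`, for `n ≥ 4`. -/
def hook (n : ℕ) (hn : 4 ≤ n) : Nat.Partition n where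
  parts := {n - 3, 1, 1, 1}
  parts_pos := by
    intro i hi
    simp only [Multiset.insert_eq_cons, Multiset.mem_cons, Multiset.mem_singleton] at hi
    omega
  parts_sum := by
    simp only [Multiset.insert_eq_cons, Multiset.sum_cons, Multiset.sum_singleton]
    omega

open Pool.Agent.Helper69.HF

/-- a perfect matching which is not in our set -/
def m0 : Finset (Sym2 V) := {s(0, 1), s(2, 3), s(4, 5), s(6, 7), s(8, 9), s(10, 12), s(11, 13)}

lemma m0_pm : IsPM m0 := by
  refine ⟨by decide +kernel, ?_⟩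
  have h : ∀ v : V, ∃ e ∈ m0, v ∈ e ∧ ∀ f ∈ m0, v ∈ f → f = e := by decide +kernel
  intro v
  obtain ⟨e, he, hv, hu⟩ := h v
  exact ⟨e, ⟨he, hv⟩, fun f hf => hu f hf.1 hf.2⟩

lemma m0_not_good : ¬ Good m0 := by
  rintro ⟨_, h⟩
  revert h
  decide +kernel

lemma pair_of_card_two {B : Finset V} (h : B.card = 2) : ∃ p q, p ≠ q ∧ B = {p, q} :=
  Finset.card_eq_two.1 h

lemma ncard_good (p q r u x y : V) (h : [p, q, r, u, x, y].Nodup) :
    {m | Good m ∧ ({s(x, y), s(r, u), s(p, q)} : Finset (Sym2 V)) ⊆ m}.ncard = 54 :=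
  F_three p q r u x y h

lemma shape_count (P : Finpartition (Finset.univ : Finset V))
    (hP : P.parts.val.map Finset.card = {8, 2, 2, 2}) :
    {m | Good m ∧ ∀ e ∈ m, ∃ B ∈ P.parts, ∀ v ∈ e, v ∈ B}.ncard = 54 := by
  classical
  rw [Multiset.insert_eq_cons, ← Multiset.map_eq_cons] at hP
  obtain ⟨B0, hB0, hc0, hP⟩ := hP
  rw [Multiset.insert_eq_cons, ← Multiset.map_eq_cons] at hP
  obtain ⟨B1, hB1, hc1, hP⟩ := hP
  rw [Multiset.insert_eq_cons, ← Multiset.map_eq_cons] at hP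
  obtain ⟨B2, hB2, hc2, hP⟩ := hP
  rw [Multiset.map_eq_singleton] at hP
  obtain ⟨B3, hP, hc3⟩ := hP
  have hall : P.parts.val = B0 ::ₘ B1 ::ₘ B2 ::ₘ {B3} := by
    rw [← hP, Multiset.cons_erase hB2, Multiset.cons_erase hB1, Multiset.cons_erase hB0]
  have hnd : (B0 ::ₘ B1 ::ₘ B2 ::ₘ {B3}).Nodup := by rw [← hall]; exact P.parts.nodup
  simp only [Multiset.nodup_cons, Multiset.mem_cons, Multiset.mem_singleton, not_or,
    Multiset.nodup_singleton, and_true] at hnd
  obtain ⟨⟨n01, n02, n03⟩, ⟨n12, n13⟩, n23⟩ := hnd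
  have hmem : ∀ B, B ∈ P.parts ↔ B = B0 ∨ B = B1 ∨ B = B2 ∨ B = B3 := by
    intro B
    rw [← Finset.mem_val, hall]
    simp only [Multiset.mem_cons, Multiset.mem_singleton]
  have m0' : B0 ∈ P.parts := (hmem _).2 (Or.inl rfl)
  have m1' : B1 ∈ P.parts := (hmem _).2 (Or.inr (Or.inl rfl))
  have m2' : B2 ∈ P.parts := (hmem _).2 (Or.inr (Or.inr (Or.inl rfl)))
  have m3' : B3 ∈ P.parts := (hmem _).2 (Or.inr (Or.inr (Or.inr rfl)))
  have uniq : ∀ {A B : Finset V} {v : V}, A ∈ P.parts → B ∈ P.parts → v ∈ A → v ∈ B → A = B := by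
    intro A B v hA hB h1 h2
    exact P.disjoint.elim_finset hA hB v h1 h2
  have cover : ∀ v : V, ∃ B ∈ P.parts, v ∈ B := by
    intro v
    exact P.exists_mem (Finset.mem_univ v)
  obtain ⟨p, q, hpq, h1⟩ := pair_of_card_two hc1
  obtain ⟨r, u, hru, h2⟩ := pair_of_card_two hc2
  obtain ⟨x, y, hxy, h3⟩ := pair_of_card_two hc3
  have p1 : p ∈ B1 := by rw [h1]; simp
  have q1 : q ∈ B1 := by rw [h1]; simp
  have r2 : r ∈ B2 := by rw [h2]; simp
  have u2 : u ∈ B2 := by rw [h2]; simp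
  have x3 : x ∈ B3 := by rw [h3]; simp
  have y3 : y ∈ B3 := by rw [h3]; simp
  have hd12 : ∀ a ∈ B1, ∀ b ∈ B2, a ≠ b := by
    rintro a ha b hb rfl; exact n12 (uniq m1' m2' ha hb)
  have hd13 : ∀ a ∈ B1, ∀ b ∈ B3, a ≠ b := by
    rintro a ha b hb rfl; exact n13 (uniq m1' m3' ha hb)
  have hd23 : ∀ a ∈ B2, ∀ b ∈ B3, a ≠ b := by
    rintro a ha b hb rfl; exact n23 (uniq m2' m3' ha hb)
  have hnod : [p, q, r, u, x, y].Nodup := by
    simp only [List.nodup_cons, List.mem_cons, List.not_mem_nil, or_false, not_or,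
      not_false_eq_true, List.nodup_nil, and_true]
    exact ⟨⟨hpq, hd12 p p1 r r2, hd12 p p1 u u2, hd13 p p1 x x3, hd13 p p1 y y3⟩,
      ⟨hd12 q q1 r r2, hd12 q q1 u u2, hd13 q q1 x x3, hd13 q q1 y y3⟩,
      ⟨hru, hd23 r r2 x x3, hd23 r r2 y y3⟩, ⟨hd23 u u2 x x3, hd23 u u2 y y3⟩, hxy⟩
  rw [← ncard_good p q r u x y hnod]
  congr 1
  ext m
  simp only [Set.mem_ofPred_eq]
  constructor
  · rintro ⟨hg, hr⟩
    refine ⟨hg, ?_⟩
    have key : ∀ (B : Finset V) (a b : V), B ∈ P.parts → B = {a, b} → s(a, b) ∈ m := by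
      intro B a b hB hab
      obtain ⟨e, ⟨he, hae⟩, _⟩ := hg.1.2 a
      obtain ⟨c, rfl⟩ := Sym2.mem_iff_exists.1 hae
      obtain ⟨B', hB', hsub⟩ := hr _ he
      have ha' : a ∈ B' := hsub a (by simp)
      have hc' : c ∈ B' := hsub c (by simp)
      have : B' = B := uniq hB' hB ha' (by rw [hab]; simp)
      rw [this, hab, Finset.mem_insert, Finset.mem_singleton] at hc'
      rcases hc' with h | h
      · exfalso
        apply hg.1.1 _ he
        rw [Sym2.mk_isDiag_iff]; exact h.symm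
      · rw [← h]; exact he
    intro e he
    simp only [Finset.mem_insert, Finset.mem_singleton] at he
    rcases he with rfl | rfl | rfl
    · exact key B3 x y m3' h3
    · exact key B2 r u m2' h2
    · exact key B1 p q m1' h1
  · rintro ⟨hg, hsub⟩
    refine ⟨hg, ?_⟩
    have key : ∀ (B : Finset V) (a b : V), B = {a, b} → s(a, b) ∈ m →
        ∀ e ∈ m, ∀ v ∈ e, v ∈ B → ∀ z ∈ e, z ∈ B := by
      intro B a b hB hab e he v hv hvB z hz
      obtain ⟨k, _, hk⟩ := hg.1.2 v
      have hvab : v ∈ s(a, b) := by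
        rw [hB, Finset.mem_insert, Finset.mem_singleton] at hvB
        rw [Sym2.mem_iff]; exact hvB
      have e1 := hk e ⟨he, hv⟩
      have e2 := hk s(a, b) ⟨hab, hvab⟩
      rw [e1, ← e2, Sym2.mem_iff] at hz
      rw [hB, Finset.mem_insert, Finset.mem_singleton]; exact hz
    have s1 : s(p, q) ∈ m := hsub (by simp)
    have s2 : s(r, u) ∈ m := hsub (by simp)
    have s3 : s(x, y) ∈ m := hsub (by simp)
    intro e he
    by_cases c1 : ∃ v ∈ e, v ∈ B1
    · obtain ⟨v, hv, hvB⟩ := c1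
      exact ⟨B1, m1', key B1 p q h1 s1 e he v hv hvB⟩
    by_cases c2 : ∃ v ∈ e, v ∈ B2
    · obtain ⟨v, hv, hvB⟩ := c2
      exact ⟨B2, m2', key B2 r u h2 s2 e he v hv hvB⟩
    by_cases c3 : ∃ v ∈ e, v ∈ B3
    · obtain ⟨v, hv, hvB⟩ := c3
      exact ⟨B3, m3', key B3 x y h3 s3 e he v hv hvB⟩
    refine ⟨B0, m0', fun v hv => ?_⟩
    obtain ⟨B, hB, hvB⟩ := cover v
    rcases (hmem B).1 hB with rfl | rfl | rfl | rfl
    · exact hvB
    · exact absurd ⟨v, hv, hvB⟩ c1
    · exact absurd ⟨v, hv, hvB⟩ c2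
    · exact absurd ⟨v, hv, hvB⟩ c3

/-- There is a non-trivial `(4, 1, 1, 1)`-factorisation of `K_14`, of index `54`. -/
theorem result : ∃ D : Set (Finset (Sym2 (Fin (2 * 7)))),
    IsFactorisation 7 (hook 7 (by norm_num)) 54 D ∧ D ≠ {m | IsPerfectMatching 7 m} := by
  refine ⟨{m | Good m}, ⟨?_, fun m hm => hm.1, by norm_num, ?_⟩, ?_⟩
  · have h := ncard_good 0 1 2 3 4 5 (by decide)
    by_contra hne
    rw [Set.not_nonempty_iff_eq_empty] at hne
    have : {m | Good m ∧ ({s(4, 5), s(2, 3), s(0, 1)} : Finset (Sym2 V)) ⊆ m} = ∅ := by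
      ext m
      constructor
      · rintro ⟨h1, _⟩
        have : m ∈ ({m | Good m} : Set (Finset (Sym2 V))) := h1
        rw [← hne]; exact this
      · intro h; exact absurd h (Set.notMem_empty _)
    rw [this, Set.ncard_empty] at h
    exact absurd h (by norm_num)
  · intro P hP
    exact shape_count P hP
  · intro h
    have : m0 ∈ {m | IsPerfectMatching 7 m} := m0_pm
    rw [← h] at this
    exact m0_not_good this

end Pool.Agent.Results.MP_5a4a69_co.HookFactorisation
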